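import Pool.Agent.W188.GP.Stm

/-!
Project GP, task H2: the discrete Hilbert transform is bounded on `l^2`.
-/

set_option autoImplicit false

namespace Pool.Agent.W308.GP2

open Finset Complex MeasureTheory intervalIntegral Pool.Agent.W188.GP

/-- the exponential `e^{-ikt}` -/
noncomputable def ee (k : ℤ) (t : ℝ) : ℂ := exp (-(I * k) * t)

theorem ee_cont (k : ℤ) : Continuous (ee k) := by
  unfold ee
  fun_prop

theorem ee_zero (t : ℝ) : ee 0 t = 1 := by
  unfold ee
  simp

theorem ee_end (k : ℤ) : ee k (2 * Real.pi) = 1 := by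
  unfold ee
  have : -(I * k) * ((2 * Real.pi : ℝ) : ℂ) = ((-k : ℤ) : ℂ) * (2 * Real.pi * I) := by
    push_cast
    ring
  rw [this, exp_int_mul_two_pi_mul_I]

theorem ee_start (k : ℤ) : ee k 0 = 1 := by
  unfold ee
  simp

theorem ee_deriv (k : ℤ) (t : ℝ) : HasDerivAt (ee k) (-(I * k) * ee k t) t := by
  unfold ee
  have h1 : HasDerivAt (fun t : ℝ => -(I * k) * (t : ℂ)) (-(I * k)) t := by
    have := (hasDerivAt_id (t : ℂ)).comp_ofReal.const_mul (-(I * k))
    simpa using this
  exact h1.cexp.congr_deriv (mul_comm _ _)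

theorem int_ee (k : ℤ) : ∫ t in (0 : ℝ)..(2 * Real.pi), ee k t =
    if k = 0 then 2 * Real.pi else 0 := by
  split_ifs with h
  · subst h
    simp only [ee_zero]
    simp
  · have hk : (-(I * k) : ℂ) ≠ 0 := by
      have : (k : ℂ) ≠ 0 := by exact_mod_cast h
      exact neg_ne_zero.2 (mul_ne_zero I_ne_zero this)
    have hd : ∀ t ∈ Set.uIcc 0 (2 * Real.pi), HasDerivAt (fun t => ee k t / (-(I * k))) (ee k t) t := by
      intro t _
      have := (ee_deriv k t).div_const (-(I * k))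
      rwa [mul_div_cancel_left₀ _ hk] at this
    rw [integral_eq_sub_of_hasDerivAt hd ((ee_cont k).intervalIntegrable _ _), ee_end, ee_start]
    simp

/-- the Fourier coefficients of the sawtooth -/
theorem int_g (k : ℤ) : ∫ t in (0 : ℝ)..(2 * Real.pi), (I * ((Real.pi : ℂ) - t)) * ee k t =
    2 * Real.pi * hk k := by
  have hlin : ∀ t : ℝ, HasDerivAt (fun t : ℝ => (Real.pi : ℂ) - (t : ℂ)) (-1) t := by
    intro t
    have := (hasDerivAt_id (t : ℂ)).comp_ofReal.const_sub (Real.pi : ℂ)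
    simpa using this
  unfold hk
  split_ifs with h
  · subst h
    simp only [ee_zero, mul_one, mul_zero]
    have hd : ∀ t ∈ Set.uIcc 0 (2 * Real.pi), HasDerivAt
        (fun t : ℝ => -(I * (((Real.pi : ℂ) - t) * ((Real.pi : ℂ) - t)) / 2))
        (I * ((Real.pi : ℂ) - t)) t := by
      intro t _
      have h2 := ((((hlin t).mul (hlin t)).const_mul I).div_const 2).neg
      refine h2.congr_deriv ?_
      ring
    rw [integral_eq_sub_of_hasDerivAt hd]
    · push_cast
      ring
    · apply Continuous.intervalIntegrable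
      fun_prop
  · have hk' : (k : ℂ) ≠ 0 := by exact_mod_cast h
    have hk : (-(I * k) : ℂ) ≠ 0 := neg_ne_zero.2 (mul_ne_zero I_ne_zero hk')
    have hd : ∀ t ∈ Set.uIcc 0 (2 * Real.pi), HasDerivAt
        (fun t : ℝ => I * ((((Real.pi : ℂ) - t) * ee k t) / (-(I * k)) +
          ee k t / (-(I * k)) ^ 2)) ((I * ((Real.pi : ℂ) - t)) * ee k t) t := by
      intro t _
      have h2 := ((((hlin t).mul (ee_deriv k t)).div_const (-(I * k))).add
        ((ee_deriv k t).div_const ((-(I * k)) ^ 2))).const_mul I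
      refine h2.congr_deriv ?_
      generalize (-(I * k) : ℂ) = c at hk
      field_simp
      ring
    rw [integral_eq_sub_of_hasDerivAt hd, ee_end, ee_start]
    · have hI : I * I = -1 := I_mul_I
      have hI0 : I ≠ 0 := I_ne_zero
      push_cast
      field_simp
      ring
    · apply Continuous.intervalIntegrable
      have := ee_cont k
      fun_prop

/-- trigonometric polynomials -/
noncomputable def tp (S : Finset ℤ) (a : ℤ → ℂ) (t : ℝ) : ℂ := ∑ n ∈ S, a n * exp (I * n * t)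

theorem tp_cont (S : Finset ℤ) (a : ℤ → ℂ) : Continuous (tp S a) := by
  unfold tp
  fun_prop

theorem tp_mul (S S' : Finset ℤ) (a c : ℤ → ℂ) (t : ℝ) :
    tp S a t * (starRingEnd ℂ) (tp S' c t) =
      ∑ m ∈ S', ∑ n ∈ S, (a n * (starRingEnd ℂ) (c m)) * ee (m - n) t := by
  unfold tp
  rw [map_sum, sum_mul_sum, sum_comm]
  refine sum_congr rfl fun m _ => sum_congr rfl fun n _ => ?_
  rw [map_mul, ← exp_conj]
  unfold ee
  have : -(I * ((m - n : ℤ) : ℂ)) * (t : ℂ) = I * n * t + (starRingEnd ℂ) (I * m * t) := by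
    have hm : (starRingEnd ℂ) (m : ℂ) = m := map_intCast (starRingEnd ℂ) m
    simp only [map_mul, conj_I, conj_ofReal, hm]
    push_cast
    ring
  rw [this, exp_add]
  ring

theorem parseval (S : Finset ℤ) (a : ℤ → ℂ) :
    ∫ t in (0 : ℝ)..(2 * Real.pi), ‖tp S a t‖ ^ 2 = 2 * Real.pi * ∑ n ∈ S, ‖a n‖ ^ 2 := by
  have h2 : ((∫ t in (0 : ℝ)..(2 * Real.pi), ‖tp S a t‖ ^ 2 : ℝ) : ℂ) =
      ((2 * Real.pi * ∑ n ∈ S, ‖a n‖ ^ 2 : ℝ) : ℂ) := by
    rw [← intervalIntegral.integral_ofReal]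
    have h1 : ∀ t : ℝ, ((‖tp S a t‖ ^ 2 : ℝ) : ℂ) =
        ∑ m ∈ S, ∑ n ∈ S, (a n * (starRingEnd ℂ) (a m)) * ee (m - n) t := by
      intro t
      rw [← Complex.normSq_eq_norm_sq, ← Complex.mul_conj, tp_mul]
    simp only [h1]
    rw [intervalIntegral.integral_finsetSum]
    · have h3 : ∀ m ∈ S, ∫ t in (0 : ℝ)..(2 * Real.pi),
          ∑ n ∈ S, (a n * (starRingEnd ℂ) (a m)) * ee (m - n) t =
          2 * Real.pi * ((‖a m‖ ^ 2 : ℝ) : ℂ) := by
        intro m hm
        rw [intervalIntegral.integral_finsetSum]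
        · simp only [intervalIntegral.integral_const_mul, int_ee]
          rw [sum_eq_single m]
          · rw [sub_self, if_pos rfl, Complex.mul_conj, Complex.normSq_eq_norm_sq]
            push_cast
            ring
          · intro n _ hn
            rw [if_neg (sub_ne_zero.2 (Ne.symm hn))]
            simp
          · exact fun h => absurd hm h
        · intro n _
          apply Continuous.intervalIntegrable
          have := ee_cont (m - n)
          fun_prop
      rw [sum_congr rfl h3, ← mul_sum]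
      push_cast
      rfl
    · intro m _
      apply Continuous.intervalIntegrable
      refine continuous_finsetSum _ fun n _ => ?_
      have := ee_cont (m - n)
      fun_prop
  exact_mod_cast h2

/-- the bilinear form -/
theorem form (S S' : Finset ℤ) (a c : ℤ → ℂ) :
    ∫ t in (0 : ℝ)..(2 * Real.pi),
      (I * ((Real.pi : ℂ) - t)) * (tp S a t * (starRingEnd ℂ) (tp S' c t)) =
      2 * Real.pi * ∑ m ∈ S', (starRingEnd ℂ) (c m) * HT S a m := by
  have h1 : ∀ t : ℝ, (I * ((Real.pi : ℂ) - t)) * (tp S a t * (starRingEnd ℂ) (tp S' c t)) =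
      ∑ m ∈ S', ∑ n ∈ S, (a n * (starRingEnd ℂ) (c m)) *
        ((I * ((Real.pi : ℂ) - t)) * ee (m - n) t) := by
    intro t
    rw [tp_mul, mul_sum]
    refine sum_congr rfl fun m _ => ?_
    rw [mul_sum]
    refine sum_congr rfl fun n _ => ?_
    ring
  simp only [h1]
  rw [intervalIntegral.integral_finsetSum, mul_sum]
  · refine sum_congr rfl fun m _ => ?_
    rw [intervalIntegral.integral_finsetSum]
    · unfold HT
      rw [mul_sum, mul_sum]
      refine sum_congr rfl fun n _ => ?_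
      rw [intervalIntegral.integral_const_mul, int_g]
      ring
    · intro n _
      apply Continuous.intervalIntegrable
      have := ee_cont (m - n)
      fun_prop
  · intro m _
    apply Continuous.intervalIntegrable
    refine continuous_finsetSum _ fun n _ => ?_
    have := ee_cont (m - n)
    fun_prop

theorem gp_h2 : Pool.Agent.W188.GP.StH2 := by
  refine ⟨Real.pi, Real.pi_pos.le, ?_⟩
  intro S S' a
  simp only [Real.rpow_two]
  have hpi := Real.pi_pos
  have hpi2 : (0 : ℝ) ≤ 2 * Real.pi := by positivity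
  obtain ⟨c, hc⟩ : ∃ c : ℤ → ℂ, c = HT S a := ⟨_, rfl⟩
  have hform := form S S' a c
  have e1 : ∑ m ∈ S', (starRingEnd ℂ) (c m) * HT S a m =
      ((∑ m ∈ S', ‖HT S a m‖ ^ 2 : ℝ) : ℂ) := by
    push_cast
    refine sum_congr rfl fun m _ => ?_
    rw [hc, mul_comm, Complex.mul_conj, Complex.normSq_eq_norm_sq]
    push_cast
    rfl
  rw [e1] at hform
  have hn : ‖∫ t in (0 : ℝ)..(2 * Real.pi),
      (I * ((Real.pi : ℂ) - t)) * (tp S a t * (starRingEnd ℂ) (tp S' c t))‖ ≤
      ∫ t in (0 : ℝ)..(2 * Real.pi), (Real.pi ^ 2 * ‖tp S a t‖ ^ 2 + ‖tp S' c t‖ ^ 2) / 2 := by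
    apply intervalIntegral.norm_integral_le_of_norm_le hpi2
    · refine Filter.Eventually.of_forall fun t ht => ?_
      have h5 : ‖(I * ((Real.pi : ℂ) - t))‖ ≤ Real.pi := by
        rw [norm_mul, norm_I, one_mul, ← ofReal_sub, norm_real, Real.norm_eq_abs, abs_le]
        constructor <;> linarith [ht.1, ht.2]
      rw [norm_mul (I * ((Real.pi : ℂ) - t)), norm_mul (tp S a t), RCLike.norm_conj]
      have h6 := norm_nonneg (tp S a t)
      have h7 := norm_nonneg (tp S' c t)
      have h8 : ‖(I * ((Real.pi : ℂ) - t))‖ * (‖tp S a t‖ * ‖tp S' c t‖) ≤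
          Real.pi * (‖tp S a t‖ * ‖tp S' c t‖) :=
        mul_le_mul_of_nonneg_right h5 (mul_nonneg h6 h7)
      nlinarith [sq_nonneg (Real.pi * ‖tp S a t‖ - ‖tp S' c t‖)]
    · apply Continuous.intervalIntegrable
      have := tp_cont S a
      have := tp_cont S' c
      fun_prop
  have e2 : ∫ t in (0 : ℝ)..(2 * Real.pi), (Real.pi ^ 2 * ‖tp S a t‖ ^ 2 + ‖tp S' c t‖ ^ 2) / 2 =
      (Real.pi ^ 2 * (2 * Real.pi * ∑ n ∈ S, ‖a n‖ ^ 2) +
        2 * Real.pi * ∑ m ∈ S', ‖HT S a m‖ ^ 2) / 2 := by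
    have hc1 := tp_cont S a
    have hc2 := tp_cont S' c
    rw [intervalIntegral.integral_div, intervalIntegral.integral_add,
      intervalIntegral.integral_const_mul, parseval, parseval, hc]
    · apply Continuous.intervalIntegrable
      fun_prop
    · apply Continuous.intervalIntegrable
      fun_prop
  rw [hform, e2] at hn
  have e3 : ‖(2 * Real.pi * ((∑ m ∈ S', ‖HT S a m‖ ^ 2 : ℝ) : ℂ) : ℂ)‖ =
      2 * Real.pi * ∑ m ∈ S', ‖HT S a m‖ ^ 2 := by
    have h9 : (0 : ℝ) ≤ ∑ m ∈ S', ‖HT S a m‖ ^ 2 := sum_nonneg fun _ _ => by positivity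
    have h10 : (2 * Real.pi * ((∑ m ∈ S', ‖HT S a m‖ ^ 2 : ℝ) : ℂ) : ℂ) =
        ((2 * Real.pi * ∑ m ∈ S', ‖HT S a m‖ ^ 2 : ℝ) : ℂ) := by
      push_cast
      ring
    rw [h10, norm_real, Real.norm_of_nonneg (by positivity)]
  rw [e3] at hn
  have h11 : Real.pi * (∑ m ∈ S', ‖HT S a m‖ ^ 2) ≤
      Real.pi * (Real.pi ^ 2 * ∑ n ∈ S, ‖a n‖ ^ 2) := by
    nlinarith
  exact le_of_mul_le_mul_left h11 hpi

end Pool.Agent.W308.GP2
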